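import Pool.Agent.H5.Md0ec72

set_option autoImplicit false

namespace Pool.Agent.Results.MP_d0ec72_al.CharZero

universe u

/-- Over every field of characteristic zero there is an infinite-dimensional Lie algebra that
satisfies the ascending chain condition on subalgebras and is residually nilpotent. -/
theorem result (k : Type u) [Field k] [CharZero k] :
    ∃ (L : Type u) (_ : LieRing L) (_ : LieAlgebra k L),
      ¬ FiniteDimensional k L ∧
      (∀ c : ℕ → LieSubalgebra k L, Monotone c → ∃ N, ∀ m, N ≤ m → c m = c N) ∧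
      (∀ x : L, x ≠ 0 → ∃ I : LieIdeal k L, x ∉ I ∧ LieRing.IsNilpotent (L ⧸ I)) :=
  ⟨Pool.Agent.H5.Md0ec72.W k, inferInstance, inferInstance,
    Pool.Agent.H5.Md0ec72.not_finite,
    fun c hc => Pool.Agent.H5.Md0ec72.acc c hc,
    fun _ hx => Pool.Agent.H5.Md0ec72.resid hx⟩

end Pool.Agent.Results.MP_d0ec72_al.CharZero
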